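import Pool.Agent.W482.LR.Stm

/-!
LR-UPB: the upper bound on cubes.
-/

set_option autoImplicit false

namespace Pool.Agent.W397.LR

open Finset Pool.Agent.H454R3

/-- runs of a relation with a given number of steps -/
inductive Run {V : Type} (S : V → V → Prop) : ℕ → V → V → Prop
  | refl (x : V) : Run S 0 x x
  | step {x y z : V} {L : ℕ} : S x y → Run S L y z → Run S (L + 1) x z

theorem Run.append {V : Type} {S : V → V → Prop} {L L' : ℕ} {x y z : V} (h : Run S L x y)
    (h' : Run S L' y z) : Run S (L + L') x z := by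
  induction h with
  | refl x => simpa using h'
  | step hs _ ih =>
    have := Run.step hs (ih h')
    rwa [Nat.add_right_comm] at this

theorem Run.path {V : Type} {S : V → V → Prop} {L : ℕ} {x y : V} (h : Run S L x y) :
    ∃ v : ℕ → V, v 0 = x ∧ v L = y ∧ ∀ k < L, S (v k) (v (k + 1)) := by
  induction h with
  | refl x => exact ⟨fun _ => x, rfl, rfl, fun k hk => absurd hk (Nat.not_lt_zero k)⟩
  | @step x y z L hs _ ih =>
    obtain ⟨v, h0, hL, hv⟩ := ih
    refine ⟨fun k => Nat.casesOn k x v, rfl, hL, ?_⟩
    intro k hk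
    cases k with
    | zero =>
      show S x (v 0)
      rw [h0]
      exact hs
    | succ k => exact hv k (by omega)

variable {n : ℕ}

theorem flip_same (x : Fin n → Bool) (i : Fin n) : flip x i i = !x i := by
  unfold Pool.Agent.H454R3.flip
  rw [Function.update_self]

theorem flip_ne (x : Fin n → Bool) {i j : Fin n} (h : j ≠ i) : flip x i j = x j := by
  unfold Pool.Agent.H454R3.flip
  rw [Function.update_of_ne h]

theorem flip_flip (x : Fin n → Bool) (i : Fin n) : flip (flip x i) i = x := by
  funext j
  by_cases h : j = i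
  · subst h
    rw [flip_same, flip_same, Bool.not_not]
  · rw [flip_ne _ h, flip_ne _ h]

/-- no improving direction in `U` -/
def Sk (f : (Fin n → Bool) → ℕ) (U : Finset (Fin n)) (y : Fin n → Bool) : Prop :=
  ∀ i ∈ U, f (flip y i) < f y

/-- the hypothesis -/
def Hyp (f : (Fin n → Bool) → ℕ) : Prop :=
  ∀ (U : Finset (Fin n)) (x : Fin n → Bool), ∃! y : Fin n → Bool,
      (∀ i, i ∉ U → y i = x i) ∧ ∀ i ∈ U, f (flip y i) < f y

variable {f : (Fin n → Bool) → ℕ}

theorem sk_unique (h : Hyp f) {U : Finset (Fin n)} {y y' : Fin n → Bool}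
    (hag : ∀ i, i ∉ U → y i = y' i) (hy : Sk f U y) (hy' : Sk f U y') : y = y' :=
  (h U y').unique ⟨hag, hy⟩ ⟨fun _ _ => rfl, hy'⟩

theorem no_tie (h : Hyp f) (y : Fin n → Bool) (i : Fin n) : f (flip y i) ≠ f y := by
  obtain ⟨z, ⟨hz1, hz2⟩, _⟩ := h {i} y
  have hz3 := hz2 i (mem_singleton_self i)
  by_cases hzi : z i = y i
  · have : z = y := by
      funext j
      by_cases hj : j = i
      · rw [hj, hzi]
      · exact hz1 j (by simpa using hj)
    rw [this] at hz3
    exact hz3.ne
  · have : z = flip y i := by
      funext j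
      by_cases hj : j = i
      · rw [hj, flip_same]
        cases h1 : z i <;> cases h2 : y i <;> simp_all
      · rw [flip_ne _ hj]
        exact hz1 j (by simpa using hj)
    rw [this, flip_flip] at hz3
    exact hz3.ne'

/-- rank of a direction -/
def rk (π : Fin n → ℕ) (i : Fin n) : ℕ := (univ.filter fun j => π j < π i).card

theorem rk_lt {π : Fin n → ℕ} {i j : Fin n} (h : π i < π j) : rk π i < rk π j := by
  unfold rk
  apply card_lt_card
  rw [ssubset_iff_of_subset]
  · exact ⟨i, by simp [h], by simp⟩
  · intro k hk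
    rw [mem_filter] at hk ⊢
    exact ⟨hk.1, hk.2.trans h⟩

theorem rk_inj {π : Fin n → ℕ} (hπ : Function.Injective π) : Function.Injective (rk π) := by
  intro i j h
  by_contra hne
  rcases lt_or_gt_of_ne (fun e => hne (hπ e) : π i ≠ π j) with h1 | h1
  · exact absurd h (rk_lt h1).ne
  · exact absurd h (rk_lt h1).ne'

theorem rk_lt_n (π : Fin n → ℕ) (i : Fin n) : rk π i < n := by
  have h1 : (univ.filter fun j => π j < π i) ⊂ (univ : Finset (Fin n)) := by
    rw [ssubset_iff_of_subset (subset_univ _)]
    exact ⟨i, mem_univ i, by simp⟩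
  have h2 := card_lt_card h1
  rwa [card_univ, Fintype.card_fin] at h2

/-- groups of directions -/
def GG (π : Fin n → ℕ) (t j : ℕ) : Finset (Fin n) := univ.filter fun i => rk π i < j * t

theorem mem_GG {π : Fin n → ℕ} {t j : ℕ} {i : Fin n} : i ∈ GG π t j ↔ rk π i < j * t := by
  simp [GG]

/-- the step relation -/
def St (f : (Fin n → Bool) → ℕ) (π : Fin n → ℕ) (t : ℕ) (x y : Fin n → Bool) : Prop :=
  ∃ i ∈ improving f x, y = flip x i ∧ ((improving f x).filter fun j => π j < π i).card < t

theorem inner {π : Fin n → ℕ} {t : ℕ} (hπ : Function.Injective π) (hf : Hyp f) (j : ℕ)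
    (hA : ∀ x, ∃ L y, Run (St f π t) L x y ∧ L + 1 ≤ (t + 1) ^ j ∧ Sk f (GG π t j) y ∧
      ∀ i, i ∉ GG π t j → y i = x i) (s : Fin n → Bool) (hs : Sk f (GG π t (j + 1)) s) (h : ℕ) :
    ∀ w : Fin n → Bool, Sk f (GG π t j) w → (∀ i, i ∉ GG π t (j + 1) → w i = s i) →
      ((GG π t (j + 1) \ GG π t j).filter fun i => w i ≠ s i).card ≤ h →
      ∃ L, Run (St f π t) L w s ∧ L ≤ h * (t + 1) ^ j := by
  have hsub : GG π t j ⊆ GG π t (j + 1) := by
    intro i hi
    rw [mem_GG] at hi ⊢
    have : j * t ≤ (j + 1) * t := Nat.mul_le_mul_right t (by omega)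
    omega
  have hs' : Sk f (GG π t j) s := fun i hi => hs i (hsub hi)
  induction h with
  | zero =>
    intro w hw hag hc
    have h0 : w = s := by
      refine sk_unique hf (U := GG π t j) ?_ hw hs'
      intro i hi
      by_cases hi2 : i ∈ GG π t (j + 1)
      · by_contra hne
        have h1 : i ∈ (GG π t (j + 1) \ GG π t j).filter fun i => w i ≠ s i := by
          rw [mem_filter, mem_sdiff]
          exact ⟨⟨hi2, hi⟩, hne⟩
        have h2 := card_pos.2 ⟨i, h1⟩
        omega
      · exact hag i hi2
    subst h0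
    exact ⟨0, Run.refl _, Nat.zero_le _⟩
  | succ h ih =>
    intro w hw hag hc
    by_cases hws : w = s
    · subst hws
      exact ⟨0, Run.refl _, Nat.zero_le _⟩
    · set H := (GG π t (j + 1) \ GG π t j).filter fun i => w i ≠ s i with hH
      have hnot : ¬ Sk f (GG π t j ∪ H) w := by
        intro hSk
        apply hws
        refine sk_unique hf (U := GG π t j ∪ H) ?_ hSk ?_
        · intro i hi
          rw [mem_union, not_or] at hi
          by_cases hi2 : i ∈ GG π t (j + 1)
          · by_contra hne
            apply hi.2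
            rw [hH, mem_filter, mem_sdiff]
            exact ⟨⟨hi2, hi.1⟩, hne⟩
          · exact hag i hi2
        · intro i hi
          rw [mem_union] at hi
          rcases hi with hi | hi
          · exact hs' i hi
          · rw [hH, mem_filter, mem_sdiff] at hi
            exact hs i hi.1.1
      unfold Sk at hnot
      push Not at hnot
      obtain ⟨c, hcU, hc1⟩ := hnot
      have hc2 : f w < f (flip w c) := lt_of_le_of_ne hc1 (fun e => no_tie hf w c e.symm)
      have hcG : c ∉ GG π t j := fun hcG => absurd (hw c hcG) (by omega)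
      have hcH : c ∈ H := by
        rcases mem_union.1 hcU with h1 | h1
        · exact absurd h1 hcG
        · exact h1
      have hcH' := hcH
      rw [hH, mem_filter, mem_sdiff, mem_GG, mem_GG] at hcH'
      have hstep : St f π t w (flip w c) := by
        refine ⟨c, by simp [improving, hc2], rfl, ?_⟩
        have h1 : ((improving f w).filter fun j => π j < π c).card ≤
            (Ico (j * t) (rk π c)).card := by
          apply card_le_card_of_injOn (rk π)
          · intro i hi
            rw [mem_coe, mem_filter] at hi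
            rw [mem_coe, mem_Ico]
            refine ⟨?_, rk_lt hi.2⟩
            by_contra hlt
            have h2 := hw i (mem_GG.2 (not_le.1 hlt))
            have h3 : f w < f (flip w i) := by simpa [improving] using hi.1
            omega
          · exact (rk_inj hπ).injOn
        rw [Nat.card_Ico] at h1
        have h2 := hcH'.1.1
        have h3 : (j + 1) * t = j * t + t := by ring
        omega
      obtain ⟨L1, w2, hR1, hL1, hw2, hag2⟩ := hA (flip w c)
      have hag3 : ∀ i, i ∉ GG π t (j + 1) → w2 i = s i := by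
        intro i hi
        rw [hag2 i (fun h1 => hi (hsub h1)), flip_ne]
        · exact hag i hi
        · rintro rfl
          exact hi (mem_GG.2 hcH'.1.1)
      have hcard : ((GG π t (j + 1) \ GG π t j).filter fun i => w2 i ≠ s i).card ≤ h := by
        have h1 : ((GG π t (j + 1) \ GG π t j).filter fun i => w2 i ≠ s i) ⊆ H.erase c := by
          intro i hi
          rw [mem_filter, mem_sdiff] at hi
          have h2 := hag2 i hi.1.2
          rw [mem_erase, hH, mem_filter, mem_sdiff]
          have hic : i ≠ c := by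
            rintro rfl
            apply hi.2
            rw [h2, flip_same]
            have h3 := hcH'.2
            cases h4 : w i <;> cases h5 : s i <;> simp_all
          refine ⟨hic, hi.1, ?_⟩
          rw [flip_ne _ hic] at h2
          rw [← h2]
          exact hi.2
        have h2 := card_le_card h1
        rw [card_erase_of_mem hcH] at h2
        omega
      obtain ⟨L2, hR2, hL2⟩ := ih w2 hw2 hag3 hcard
      refine ⟨L1 + L2 + 1, Run.step hstep (hR1.append hR2), ?_⟩
      have h3 : (h + 1) * (t + 1) ^ j = h * (t + 1) ^ j + (t + 1) ^ j := by ring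
      omega

theorem outer {π : Fin n → ℕ} {t : ℕ} (hπ : Function.Injective π) (hf : Hyp f) (j : ℕ) :
    ∀ x, ∃ L y, Run (St f π t) L x y ∧ L + 1 ≤ (t + 1) ^ j ∧ Sk f (GG π t j) y ∧
      ∀ i, i ∉ GG π t j → y i = x i := by
  induction j with
  | zero =>
    intro x
    refine ⟨0, x, Run.refl x, by simp, ?_, fun _ _ => rfl⟩
    intro i hi
    rw [mem_GG] at hi
    omega
  | succ j ih =>
    intro x
    obtain ⟨L0, w, hR0, hL0, hw, hag⟩ := ih x
    obtain ⟨s, ⟨hs1, hs2⟩, _⟩ := hf (GG π t (j + 1)) x
    have hsub : GG π t j ⊆ GG π t (j + 1) := by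
      intro i hi
      rw [mem_GG] at hi ⊢
      have : j * t ≤ (j + 1) * t := Nat.mul_le_mul_right t (by omega)
      omega
    have hcard : ((GG π t (j + 1) \ GG π t j).filter fun i => w i ≠ s i).card ≤ t := by
      refine (card_filter_le _ _).trans ?_
      have h1 : (GG π t (j + 1) \ GG π t j).card ≤ (Ico (j * t) ((j + 1) * t)).card := by
        apply card_le_card_of_injOn (rk π)
        · intro i hi
          rw [mem_coe, mem_sdiff, mem_GG, mem_GG] at hi
          rw [mem_coe, mem_Ico]
          exact ⟨not_lt.1 hi.2, hi.1⟩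
        · exact (rk_inj hπ).injOn
      rw [Nat.card_Ico] at h1
      have h3 : (j + 1) * t = j * t + t := by ring
      omega
    obtain ⟨L1, hR1, hL1⟩ := inner hπ hf j ih s hs2 t w hw (fun i hi => by
      rw [hag i (fun h1 => hi (hsub h1)), hs1 i hi]) hcard
    refine ⟨L0 + L1, s, hR0.append hR1, ?_, hs2, hs1⟩
    have h3 : (t + 1) ^ (j + 1) = t * (t + 1) ^ j + (t + 1) ^ j := by ring
    omega

theorem upb : Pool.Agent.W482.LR.UPB := by
  intro n t π f ht hπ hf x
  have hf' : Hyp f := hf
  obtain ⟨L, y, hR, hL, hy, _⟩ := outer (t := t) hπ hf' ((n + t - 1) / t) x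
  have huniv : GG π t ((n + t - 1) / t) = univ := by
    ext i
    simp only [mem_univ, iff_true]
    rw [mem_GG]
    have h1 := rk_lt_n π i
    have h2 := Nat.div_add_mod (n + t - 1) t
    have h3 := Nat.mod_lt (n + t - 1) ht
    rw [mul_comm] at h2
    omega
  rw [huniv] at hy
  obtain ⟨z, hz⟩ := Finite.exists_max f
  have hzs : Sk f univ z := fun i _ => lt_of_le_of_ne (hz (flip z i)) (no_tie hf' z i)
  have hzy : y = z := sk_unique hf' (U := univ) (fun i hi => absurd (mem_univ i) hi) hy hzs
  obtain ⟨v, hv0, hvL, hv⟩ := hR.path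
  refine ⟨L, v, hv0, ?_, ?_, hL⟩
  · intro k hk
    exact hv k hk
  · intro u
    rw [hvL, hzy]
    exact hz u

end Pool.Agent.W397.LR
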